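import Pool.Agent.Helper35.LIM.Defs

/-!
LIM: pigeonhole and torsion points (L1a - L1d).
-/

set_option autoImplicit false

open MeasureTheory Finset Filter Topology
open Helper75.RE (arc)

namespace Helper35.LIM

/-- L1a (helper28). Two points of the same colour at distance at most `P`. -/
theorem close_pair {L P : ℕ} (hP : 0 < P) (G : Finset ℕ) (hG : ∀ a ∈ G, a < L) (col : ℕ → ℕ)
    (S : Finset ℕ) (hcol : ∀ a ∈ G, col a ∈ S) (h : S.card * (L / P + 1) < G.card) :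
    ∃ a i : ℕ, 1 ≤ i ∧ i ≤ P ∧ a ∈ G ∧ a + i ∈ G ∧ col a = col (a + i) := by
  classical
  have key : ∀ x ∈ G, ∀ y ∈ G, x < y → col x = col y → x / P = y / P →
      ∃ a i : ℕ, 1 ≤ i ∧ i ≤ P ∧ a ∈ G ∧ a + i ∈ G ∧ col a = col (a + i) := by
    intro x hx y hy hxy hc hd
    refine ⟨x, y - x, by omega, ?_, hx, ?_, ?_⟩
    · have h1 := Nat.div_add_mod x P
      have h2 := Nat.div_add_mod y P
      have h3 := Nat.mod_lt x hP
      have h4 := Nat.mod_lt y hP
      rw [hd] at h1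
      omega
    · rw [show x + (y - x) = y by omega]
      exact hy
    · rw [show x + (y - x) = y by omega]
      exact hc
  obtain ⟨x, hx, y, hy, hne, hxy⟩ := Finset.exists_ne_map_eq_of_card_lt_of_maps_to
    (s := G) (t := S ×ˢ range (L / P + 1)) (f := fun a => (col a, a / P)) (by
      rw [Finset.card_product, Finset.card_range]
      exact h) (fun a ha => by
      rw [Finset.mem_coe, Finset.mem_product, Finset.mem_range]
      exact ⟨hcol a ha, Nat.lt_succ_of_le (Nat.div_le_div_right (hG a ha).le)⟩)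
  have hc := (Prod.ext_iff.1 hxy).1
  have hd := (Prod.ext_iff.1 hxy).2
  rcases lt_or_gt_of_ne hne with h1 | h1
  · exact key x hx y hy h1 hc hd
  · exact key y hy x hx h1 hc.symm hd.symm

theorem norm_le_abs (y : ℝ) : ‖(y : Tor)‖ ≤ |y| := by
  have h1 := QuotientAddGroup.norm_mk_le_norm (S := AddSubgroup.zmultiples (1 : ℝ)) (m := y)
  exact h1

/-- L1b. -/
theorem near_torsion (n : ℕ) (hn : 1 ≤ n) (x : Tor) (η : ℝ) (h : ‖n • x‖ ≤ η) :
    ∃ r : Tor, n • r = 0 ∧ ‖x - r‖ ≤ η / n := by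
  obtain ⟨y, rfl⟩ := QuotientAddGroup.mk_surjective x
  change ‖n • (y : Tor)‖ ≤ η at h
  have hn0 : (0 : ℝ) < n := by exact_mod_cast hn
  rw [← AddCircle.coe_nsmul, UnitAddCircle.norm_eq, nsmul_eq_mul] at h
  refine ⟨((round (n * y) / n : ℝ) : Tor), ?_, ?_⟩
  · rw [← AddCircle.coe_nsmul, nsmul_eq_mul, mul_div_cancel₀ _ hn0.ne']
    exact (AddCircle.coe_eq_zero_iff 1).2 ⟨round (n * y), by simp⟩
  · change ‖(y : Tor) - ((round (n * y) / n : ℝ) : Tor)‖ ≤ _
    rw [← AddCircle.coe_sub]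
    refine (norm_le_abs _).trans ?_
    rw [le_div_iff₀ hn0]
    calc |y - round (n * y) / n| * n = |(y - round (n * y) / n) * n| := by
          rw [abs_mul, abs_of_pos hn0]
      _ = |n * y - round (n * y)| := by
          congr 1
          field_simp
      _ ≤ η := h

theorem torsion_ge (n : ℕ) (hn : 1 ≤ n) (d : Tor) (hd : n • d = 0) (hd0 : d ≠ 0) :
    1 / (n : ℝ) ≤ ‖d‖ := by
  obtain ⟨y, rfl⟩ := QuotientAddGroup.mk_surjective d
  change n • (y : Tor) = 0 at hd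
  change 1 / (n : ℝ) ≤ ‖(y : Tor)‖
  have hn0 : (0 : ℝ) < n := by exact_mod_cast hn
  rw [UnitAddCircle.norm_eq]
  rw [← AddCircle.coe_nsmul, nsmul_eq_mul] at hd
  obtain ⟨k, hk⟩ := (AddCircle.coe_eq_zero_iff 1).1 hd
  have hk' : (k : ℝ) = n * y := by simpa using hk
  have hz : (y - round y) * n = ((k - n * round y : ℤ) : ℝ) := by
    push_cast
    rw [hk']
    ring
  have hne : (k - n * round y : ℤ) ≠ 0 := by
    intro h0
    rw [h0, Int.cast_zero] at hz
    apply hd0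
    have h1 : y - round y = 0 := (mul_eq_zero.1 hz).resolve_right hn0.ne'
    have h2 : y = round y := by linarith
    change (y : Tor) = 0
    rw [h2]
    exact (AddCircle.coe_eq_zero_iff 1).2 ⟨round y, by simp⟩
  have h1 : (1 : ℝ) ≤ |((k - n * round y : ℤ) : ℝ)| := by
    rw [← Int.cast_abs]
    exact_mod_cast Int.one_le_abs hne
  rw [div_le_iff₀ hn0]
  calc (1 : ℝ) ≤ |(y - round y) * n| := by rw [hz]; exact h1
    _ = |y - round y| * n := by rw [abs_mul, abs_of_pos hn0]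

/-- L1c. -/
theorem torsion_sep (n m : ℕ) (hn : 1 ≤ n) (hm : 1 ≤ m) (r s : Tor) (hr : n • r = 0)
    (hs : m • s = 0) (hne : r ≠ s) : 1 / ((n : ℝ) * m) ≤ ‖r - s‖ := by
  have h1 := torsion_ge (n * m) (Nat.mul_pos hn hm) (r - s) (by
    rw [smul_sub, mul_smul, mul_smul, hs, smul_zero, sub_zero, smul_comm, hr, smul_zero])
    (sub_ne_zero.2 hne)
  push_cast at h1
  exact h1

/-- the order divides a power of `p` times a power of `q` -/
theorem ord_aux (u : Tor) (a b L M M' c N : ℕ) (p q : ℕ) (hp : p.Prime) (hq : q.Prime)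
    (hpq : p ≠ q) (h1 : (p ^ a * q ^ b : ℕ) • u = 0) (hb : b ≤ M')
    (h2 : (p ^ N * q ^ c * L : ℕ) • u = 0) (hL : 0 < L) (hM : N + Nat.log p L ≤ M) :
    (p ^ M * q ^ M' : ℕ) • u = 0 := by
  rw [← addOrderOf_dvd_iff_nsmul_eq_zero] at h1 h2 ⊢
  obtain ⟨D1, D2, hD1, hD2, hD⟩ := (Nat.dvd_mul).1 h1
  obtain ⟨x, hx, rfl⟩ := (Nat.dvd_prime_pow hp).1 hD1
  obtain ⟨y, hy, rfl⟩ := (Nat.dvd_prime_pow hq).1 hD2
  rw [← hD] at h2 ⊢
  have h3 : p ^ x ∣ p ^ N * L := by
    have h4 : p ^ x ∣ (p ^ N * L) * q ^ c := by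
      rw [show p ^ N * L * q ^ c = p ^ N * q ^ c * L by ring]
      exact (Dvd.intro _ rfl).trans h2
    exact (Nat.Coprime.dvd_mul_right (Nat.Coprime.pow x c ((Nat.coprime_primes hp hq).2 hpq))).1 h4
  have h4 : x ≤ M := by
    by_contra hxM
    have h5 : p ^ N * p ^ (x - N) ∣ p ^ N * L := by
      rw [← pow_add, show N + (x - N) = x by omega]
      exact h3
    have h6 : p ^ (x - N) ∣ L := Nat.dvd_of_mul_dvd_mul_left (pow_pos hp.pos N) h5
    have h7 : p ^ (x - N) ≤ L := Nat.le_of_dvd hL h6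
    have h8 : x - N ≤ Nat.log p L := Nat.le_log_of_pow_le hp.one_lt h7
    omega
  exact Nat.mul_dvd_mul (pow_dvd_pow p h4) (pow_dvd_pow q (hy.trans hb))

/-- L1d. Shifted far enough the point is periodic. -/
theorem shift' (r : Tor) (a b a' b' i j P : ℕ) (hi : 1 ≤ i) (hj : 1 ≤ j) (hiP : i ≤ P)
    (hjP : j ≤ P) (h2 : (2 ^ a * 3 ^ b * (2 ^ i - 1) : ℕ) • r = 0)
    (h3 : (2 ^ a' * 3 ^ b' * (3 ^ j - 1) : ℕ) • r = 0) :
    (2 ^ i : ℕ) • ((2 ^ (a' + 2 * P) * 3 ^ (b + 2 * P) : ℕ) • r) =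
        (2 ^ (a' + 2 * P) * 3 ^ (b + 2 * P) : ℕ) • r ∧
      (3 ^ j : ℕ) • ((2 ^ (a' + 2 * P) * 3 ^ (b + 2 * P) : ℕ) • r) =
        (2 ^ (a' + 2 * P) * 3 ^ (b + 2 * P) : ℕ) • r := by
  have h2i : 2 ≤ 2 ^ i := by
    calc 2 = 2 ^ 1 := by norm_num
      _ ≤ 2 ^ i := Nat.pow_le_pow_right (by norm_num) hi
  have h3j : 3 ≤ 3 ^ j := by
    calc 3 = 3 ^ 1 := by norm_num
      _ ≤ 3 ^ j := Nat.pow_le_pow_right (by norm_num) hj
  have key : ∀ (E m : ℕ) (hm : 1 ≤ m), E • ((m - 1 : ℕ) • r) = 0 → m • (E • r) = E • r := by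
    intro E m hm h
    obtain ⟨k, rfl⟩ : ∃ k, m = k + 1 := ⟨m - 1, by omega⟩
    rw [Nat.add_sub_cancel, smul_comm] at h
    rw [add_smul, one_smul, h, zero_add]
  have l1 : Nat.log 2 (3 ^ j - 1) ≤ 2 * P := by
    refine (Nat.log_mono_right (Nat.sub_le _ _)).trans ?_
    calc Nat.log 2 (3 ^ j) ≤ Nat.log 2 (2 ^ (2 * j)) := by
          apply Nat.log_mono_right
          rw [pow_mul]
          exact Nat.pow_le_pow_left (by norm_num) j
      _ = 2 * j := Nat.log_pow (by norm_num) _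
      _ ≤ 2 * P := by omega
  have l2 : Nat.log 3 (2 ^ i - 1) ≤ 2 * P := by
    refine (Nat.log_mono_right (Nat.sub_le _ _)).trans ?_
    calc Nat.log 3 (2 ^ i) ≤ Nat.log 3 (3 ^ i) := by
          apply Nat.log_mono_right
          exact Nat.pow_le_pow_left (by norm_num) i
      _ = i := Nat.log_pow (by norm_num) _
      _ ≤ 2 * P := by omega
  constructor
  · apply key _ _ (by omega)
    refine ord_aux _ a b (3 ^ j - 1) (a' + 2 * P) (b + 2 * P) b' a' 2 3 Nat.prime_two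
      Nat.prime_three (by norm_num) ?_ (by omega) ?_ (by omega) (by omega)
    · rw [← mul_smul]
      exact h2
    · rw [smul_comm, h3, smul_zero]
  · apply key _ _ (by omega)
    rw [mul_comm (2 ^ (a' + 2 * P))]
    refine ord_aux _ b' a' (2 ^ i - 1) (b + 2 * P) (a' + 2 * P) a b 3 2 Nat.prime_three
      Nat.prime_two (by norm_num) ?_ (by omega) ?_ (by omega) (by omega)
    · rw [← mul_smul, mul_comm (3 ^ b')]
      exact h3
    · rw [smul_comm, mul_comm (3 ^ b), h2, smul_zero]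

end Helper35.LIM
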