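import Pool.Agent.Helper35.LIM.Defs

/-!
LIM: few arcs from small entropy and from fast approximation (L5, L2).
-/

set_option autoImplicit false

open MeasureTheory Finset Filter Topology
open Helper75.RE (arc)

namespace Helper35.LIM

theorem arc_disjoint (K : ℕ) : (↑(range (2 ^ K)) : Set ℕ).PairwiseDisjoint (arc K) := by
  intro i hi j hj hij
  rw [Finset.mem_coe, Finset.mem_range] at hi hj
  rw [Function.onFun, Set.disjoint_left]
  intro x hx hx'
  rw [Helper75.RE.mem_arc_iff, Nat.mod_eq_of_lt hi] at hx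
  rw [Helper75.RE.mem_arc_iff, Nat.mod_eq_of_lt hj] at hx'
  exact hij (hx.symm.trans hx')

theorem real_arcs {μ : Measure Tor} [IsProbabilityMeasure μ] (K : ℕ) (S : Finset ℕ)
    (hS : S ⊆ range (2 ^ K)) : μ.real (⋃ i ∈ S, arc K i) = ∑ i ∈ S, μ.real (arc K i) :=
  measureReal_biUnion_finset ((arc_disjoint K).subset (Finset.coe_subset.2 hS))
    fun i _ => Helper75.RE.measurableSet_arc K i

theorem sum_arcs {μ : Measure Tor} [IsProbabilityMeasure μ] (K : ℕ) :
    ∑ i ∈ range (2 ^ K), μ.real (arc K i) = 1 := by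
  rw [← real_arcs K _ Finset.Subset.rfl]
  have h1 : (⋃ i ∈ range (2 ^ K), arc K i) = Set.univ := by
    rw [Set.eq_univ_iff_forall]
    intro x
    rw [Helper75.RE.mem_biUnion_arc, Finset.mem_image]
    exact ⟨Helper75.RE.idx K x, Finset.mem_range.2 (Helper75.RE.idx_lt K x),
      Nat.mod_eq_of_lt (Helper75.RE.idx_lt K x)⟩
  rw [h1, probReal_univ]

/-- L5 (helper28). Few arcs from small entropy. -/
theorem few_of_entropy {μ : Measure Tor} [IsProbabilityMeasure μ] {c : ℝ} (hc : c < 1)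
    (h : ∃ᶠ K : ℕ in atTop, ∑ i ∈ range (2 ^ K), Real.negMulLog (μ.real (arc K i)) ≤
      c * Real.log K) : FewArcs μ := by
  classical
  obtain ⟨c0, hc0, hc01, hcc0⟩ : ∃ c0 : ℝ, 0 ≤ c0 ∧ c0 < 1 ∧ c ≤ c0 :=
    ⟨max c 0, le_max_right _ _, max_lt hc one_pos, le_max_left _ _⟩
  have hε : 0 < (1 - c0) / 2 := by linarith
  refine ⟨(1 - c0) / 2, hε, ?_⟩
  refine (h.and_eventually (eventually_ge_atTop 2)).mono ?_
  rintro K ⟨hK, hK2⟩
  have hKr : (2 : ℝ) ≤ K := by exact_mod_cast hK2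
  have hlog : 0 < Real.log K := Real.log_pos (by linarith)
  have hK' : ∑ i ∈ range (2 ^ K), Real.negMulLog (μ.real (arc K i)) ≤ c0 * Real.log K :=
    hK.trans (mul_le_mul_of_nonneg_right hcc0 hlog.le)
  have hd : (0 : ℝ) < (K : ℝ) ^ (-((1 + c0) / 2)) := Real.rpow_pos_of_pos (by linarith) _
  set S := (range (2 ^ K)).filter fun i => (K : ℝ) ^ (-((1 + c0) / 2)) ≤ μ.real (arc K i) with hS
  refine ⟨S, ?_, ?_⟩
  · have h1 : (S.card : ℝ) * (K : ℝ) ^ (-((1 + c0) / 2)) ≤ 1 := by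
      rw [← nsmul_eq_mul]
      calc _ ≤ ∑ i ∈ S, μ.real (arc K i) :=
            Finset.card_nsmul_le_sum S _ _ fun i hi => (Finset.mem_filter.1 hi).2
        _ ≤ ∑ i ∈ range (2 ^ K), μ.real (arc K i) :=
            Finset.sum_le_sum_of_subset_of_nonneg (Finset.filter_subset _ _)
            fun _ _ _ => measureReal_nonneg
        _ = 1 := sum_arcs K
    rw [Real.rpow_neg (by linarith), ← div_eq_mul_inv,
      div_le_one (Real.rpow_pos_of_pos (by linarith) _)] at h1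
    rw [show 1 - (1 - c0) / 2 = (1 + c0) / 2 by ring]
    exact h1
  · rw [real_arcs K S (Finset.filter_subset _ _)]
    have h1 : ∑ i ∈ (range (2 ^ K)).filter (fun i => ¬ (K : ℝ) ^ (-((1 + c0) / 2)) ≤
        μ.real (arc K i)), μ.real (arc K i) * ((1 + c0) / 2 * Real.log K) ≤ c0 * Real.log K := by
      refine le_trans ?_ hK'
      refine le_trans (Finset.sum_le_sum (g := fun i => Real.negMulLog (μ.real (arc K i)))
        fun i hi => ?_) (Finset.sum_le_sum_of_subset_of_nonneg (Finset.filter_subset _ _)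
        fun i _ _ => Real.negMulLog_nonneg measureReal_nonneg measureReal_le_one)
      have h2 := not_le.1 (Finset.mem_filter.1 hi).2
      rcases eq_or_lt_of_le (measureReal_nonneg (μ := μ) (s := arc K i)) with h3 | h3
      · rw [← h3]
        simp
      · have h4 := Real.log_lt_log h3 h2
        rw [Real.log_rpow (by linarith)] at h4
        rw [Real.negMulLog, neg_mul, ← mul_neg]
        refine mul_le_mul_of_nonneg_left ?_ h3.le
        linarith
    rw [← Finset.sum_mul] at h1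
    have h2 : ∑ i ∈ S, μ.real (arc K i) + ∑ i ∈ (range (2 ^ K)).filter (fun i =>
        ¬ (K : ℝ) ^ (-((1 + c0) / 2)) ≤ μ.real (arc K i)), μ.real (arc K i) = 1 := by
      rw [hS, Finset.sum_filter_add_sum_filter_not, sum_arcs]
    obtain ⟨T, hT⟩ : ∃ T, T = ∑ i ∈ (range (2 ^ K)).filter (fun i =>
        ¬ (K : ℝ) ^ (-((1 + c0) / 2)) ≤ μ.real (arc K i)), μ.real (arc K i) := ⟨_, rfl⟩
    rw [← hT] at h1 h2
    have h3 : T * ((1 + c0) / 2) ≤ c0 := by
      have h4 : T * ((1 + c0) / 2) * Real.log K ≤ c0 * Real.log K := by linarith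
      exact le_of_mul_le_mul_right h4 hlog
    nlinarith

theorem exists_rep (d : Tor) : ∃ y : ℝ, (y : Tor) = d ∧ |y| = ‖d‖ := by
  obtain ⟨y, rfl⟩ := QuotientAddGroup.mk_surjective d
  refine ⟨y - round y, ?_, ?_⟩
  · have h1 : (((round y : ℤ) : ℝ) : Tor) = 0 :=
      (AddCircle.coe_eq_zero_iff 1).2 ⟨round y, by simp⟩
    rw [AddCircle.coe_sub, h1, sub_zero]
  · change _ = ‖(y : Tor)‖
    rw [UnitAddCircle.norm_eq]

theorem ball_arcs (K : ℕ) (x z : Tor) (h : ‖x - z‖ ≤ 1 / 2 ^ K) :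
    x ∈ arc K (Helper75.RE.idx K z + (2 ^ K - 1)) ∨ x ∈ arc K (Helper75.RE.idx K z) ∨
      x ∈ arc K (Helper75.RE.idx K z + 1) := by
  have h2 : (0 : ℝ) < 2 ^ K := by positivity
  obtain ⟨d, hd, hd'⟩ := exists_rep (x - z)
  rw [← hd', le_div_iff₀ h2] at h
  have hz := (Helper75.RE.mem_arc_iff K (Helper75.RE.idx K z) z).2
    (Nat.mod_eq_of_lt (Helper75.RE.idx_lt K z)).symm
  obtain ⟨y, ⟨hy1, hy2⟩, hyz⟩ := hz
  change (y : Tor) = z at hyz
  obtain ⟨i, hi⟩ : ∃ i, i = Helper75.RE.idx K z := ⟨_, rfl⟩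
  rw [← hi] at hy1 hy2 ⊢
  rw [div_le_iff₀ h2] at hy1
  rw [lt_div_iff₀ h2] at hy2
  have hx : ((y + d : ℝ) : Tor) = x := by
    rw [AddCircle.coe_add, hyz, hd]
    abel
  have hdl : -1 ≤ d * 2 ^ K ∧ d * 2 ^ K ≤ 1 := by
    rw [← abs_of_pos h2, ← abs_mul] at h
    exact abs_le.1 h
  have hexp : (y + d) * 2 ^ K = y * 2 ^ K + d * 2 ^ K := by ring
  rcases lt_or_ge ((y + d) * 2 ^ K) i with h3 | h3
  · left
    refine ⟨y + d + 1, ⟨?_, ?_⟩, ?_⟩
    · rw [div_le_iff₀ h2]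
      have h1 : (1 : ℕ) ≤ 2 ^ K := Nat.one_le_two_pow
      push_cast [Nat.cast_sub h1]
      linarith
    · rw [lt_div_iff₀ h2]
      have h1 : (1 : ℕ) ≤ 2 ^ K := Nat.one_le_two_pow
      push_cast [Nat.cast_sub h1]
      linarith
    · change ((y + d + 1 : ℝ) : Tor) = x
      have h1 : ((1 : ℝ) : Tor) = 0 := (AddCircle.coe_eq_zero_iff 1).2 ⟨1, by simp⟩
      rw [AddCircle.coe_add, hx, h1, add_zero]
  · right
    rcases lt_or_ge ((y + d) * 2 ^ K) (i + 1) with h4 | h4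
    · left
      refine ⟨y + d, ⟨?_, ?_⟩, hx⟩
      · rwa [div_le_iff₀ h2]
      · rwa [lt_div_iff₀ h2]
    · right
      refine ⟨y + d, ⟨?_, ?_⟩, hx⟩
      · rw [div_le_iff₀ h2]
        push_cast
        exact h4
      · rw [lt_div_iff₀ h2]
        push_cast
        linarith

/-- L2 (helper28). -/
theorem few_of_fast {μ : Measure Tor} [IsProbabilityMeasure μ] (h : Fast μ) : FewArcs μ := by
  classical
  obtain ⟨ε, hε, hfr⟩ := h
  refine ⟨ε / 2, by linarith, ?_⟩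
  have hbig : ∀ᶠ K : ℕ in atTop, (3 : ℝ) ≤ (K : ℝ) ^ (ε / 2) :=
    ((tendsto_rpow_atTop (by linarith)).comp tendsto_natCast_atTop_atTop).eventually_ge_atTop 3
  refine (hfr.and_eventually (hbig.and (eventually_ge_atTop 1))).mono ?_
  rintro K ⟨⟨Z, hZ, _, _, hcard, hμ⟩, hK3, hK1⟩
  have hKr : (0 : ℝ) < K := by exact_mod_cast hK1
  let S : Finset ℕ := hZ.toFinset.biUnion fun z =>
    {Helper75.RE.idx K z + (2 ^ K - 1), Helper75.RE.idx K z, Helper75.RE.idx K z + 1}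
  refine ⟨S, ?_, ?_⟩
  · have h1 : S.card ≤ Z.ncard * 3 := by
      rw [Set.ncard_eq_toFinset_card Z hZ]
      exact Finset.card_biUnion_le_card_mul _ _ _ fun z _ => Finset.card_le_three
    calc (S.card : ℝ) ≤ (Z.ncard : ℝ) * 3 := by exact_mod_cast h1
      _ ≤ (K : ℝ) ^ (1 - ε) * (K : ℝ) ^ (ε / 2) :=
          mul_le_mul hcard hK3 (by norm_num) (Real.rpow_nonneg hKr.le _)
      _ = (K : ℝ) ^ (1 - ε / 2) := by
          rw [← Real.rpow_add hKr]
          congr 1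
          ring
  · have h1 : {x : Tor | ∃ z ∈ Z, ‖x - z‖ ≤ 1 / 2 ^ K} ⊆ ⋃ i ∈ S, arc K i := by
      rintro x ⟨z, hz, hxz⟩
      simp only [Set.mem_iUnion, exists_prop]
      have hmem : ∀ i ∈ ({Helper75.RE.idx K z + (2 ^ K - 1), Helper75.RE.idx K z,
          Helper75.RE.idx K z + 1} : Finset ℕ), i ∈ S := fun i hi =>
        Finset.mem_biUnion.2 ⟨z, hZ.mem_toFinset.2 hz, hi⟩
      rcases ball_arcs K x z hxz with h2 | h2 | h2
      · exact ⟨_, hmem _ (by simp), h2⟩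
      · exact ⟨_, hmem _ (by simp), h2⟩
      · exact ⟨_, hmem _ (by simp), h2⟩
    have h2 := measureReal_mono (μ := μ) h1 (measure_ne_top _ _)
    linarith

end Helper35.LIM
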